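import Pool.Agent.Helper82.PL.Defs

/-!
Packet Rd: derivatives and continuity of the auxiliary functions away from zero.
-/

set_option autoImplicit false

open MeasureTheory Set Filter Topology
open Pool.Agent.Helper82.PL

namespace Pool.Agent.Helper8.PL

/-- Partial derivatives of a differentiable function of two variables. -/
def HD (f : ℝ × ℝ → ℝ) (fx fz : ℝ) (p : ℝ × ℝ) : Prop :=
  HasFDerivAt f (fx • ContinuousLinearMap.fst ℝ ℝ ℝ + fz • ContinuousLinearMap.snd ℝ ℝ ℝ) p

section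

variable {f g : ℝ × ℝ → ℝ} {fx fz gx gz : ℝ} {p : ℝ × ℝ}

lemma HD.congr {fx' fz' : ℝ} (h : HD f fx fz p) (h1 : fx = fx') (h2 : fz = fz') :
    HD f fx' fz' p := by rw [← h1, ← h2]; exact h

lemma HD.mul (hf : HD f fx fz p) (hg : HD g gx gz p) :
    HD (fun q => f q * g q) (fx * g p + f p * gx) (fz * g p + f p * gz) p := by
  have h := HasFDerivAt.mul hf hg
  unfold HD
  refine h.congr_fderiv ?_
  ext v <;> simp <;> ring

lemma HD.add (hf : HD f fx fz p) (hg : HD g gx gz p) :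
    HD (fun q => f q + g q) (fx + gx) (fz + gz) p := by
  have h := HasFDerivAt.add hf hg
  unfold HD
  refine h.congr_fderiv ?_
  ext v <;> simp

lemma HD.sub (hf : HD f fx fz p) (hg : HD g gx gz p) :
    HD (fun q => f q - g q) (fx - gx) (fz - gz) p := by
  have h := HasFDerivAt.sub hf hg
  unfold HD
  refine h.congr_fderiv ?_
  ext v <;> simp

lemma HD.const (c : ℝ) : HD (fun _ => c) 0 0 p := by
  unfold HD
  refine (hasFDerivAt_const c p).congr_fderiv ?_
  ext v <;> simp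

lemma HD.inv (hf : HD f fx fz p) (h0 : f p ≠ 0) :
    HD (fun q => (f q)⁻¹) (-(fx / f p ^ 2)) (-(fz / f p ^ 2)) p := by
  have h := (hasDerivAt_inv h0).comp_hasFDerivAt p hf
  unfold HD
  refine h.congr_fderiv ?_
  ext v <;> simp <;> ring

lemma HD.div (hf : HD f fx fz p) (hg : HD g gx gz p) (h0 : g p ≠ 0) :
    HD (fun q => f q / g q) ((fx - f p / g p * gx) / g p) ((fz - f p / g p * gz) / g p) p := by
  have h := hf.mul (hg.inv h0)
  have e : (fun q => f q / g q) = fun q => f q * (g q)⁻¹ := by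
    funext q; exact div_eq_mul_inv _ _
  rw [e]
  refine h.congr ?_ ?_
  · field_simp
    ring
  · field_simp
    ring

lemma HD.pow (hf : HD f fx fz p) (n : ℕ) :
    HD (fun q => f q ^ (n + 1)) ((n + 1 : ℕ) * f p ^ n * fx) ((n + 1 : ℕ) * f p ^ n * fz) p := by
  induction n with
  | zero => simpa using hf
  | succ n ih =>
    have h := ih.mul hf
    have e : (fun q => f q ^ (n + 1 + 1)) = fun q => f q ^ (n + 1) * f q := by
      funext q; ring
    rw [e]
    refine h.congr ?_ ?_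
    · push_cast; ring
    · push_cast; ring

lemma HD.fst (x z : ℝ) : HD (fun q => q.1) 1 0 (x, z) := by
  unfold HD
  refine hasFDerivAt_fst.congr_fderiv ?_
  ext v <;> simp

lemma HD.snd {u : ℝ → ℝ} {u' x z : ℝ} (h : HasDerivAt u u' z) : HD (fun q => u q.2) 0 u' (x, z) := by
  have h1 : HasDerivAt u u' ((x, z) : ℝ × ℝ).2 := h
  have h2 := h1.comp_hasFDerivAt (x, z) (hasFDerivAt_snd (𝕜 := ℝ) (E := ℝ) (F := ℝ))
  unfold HD
  refine h2.congr_fderiv ?_
  ext v <;> simp

end

/-- The mixed derivative. -/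
noncomputable def Mxz (l x z : ℝ) : ℝ :=
  2 * (l * x) ^ 2 * (2 * ph z * ph' z + 4 * hh' z * ph z + 4 * hh z * ph' z +
    2 * hh z * hh' z) + 24 * (l * x) ^ 4 * ph z * ph' z

/-- The derivative of `R1` in the second variable. -/
noncomputable def R1z (l x z : ℝ) : ℝ :=
  Rz l x z * (10 - Mx l x z / Mh l x z) -
    Rr l x z * ((Mxz l x z - Mx l x z / Mh l x z * Mz l x z) / Mh l x z)

variable {l x z : ℝ}

lemma hd_K (h : stmtProf) : HD (fun q => ph q.2 ^ 2 + 4 * hh q.2 * ph q.2 + hh q.2 ^ 2) 0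
    (2 * ph z * ph' z + 4 * hh' z * ph z + 4 * hh z * ph' z + 2 * hh z * hh' z) (x, z) := by
  have hp : HD (fun q => ph q.2) 0 (ph' z) (x, z) := HD.snd (h.dph z)
  have hh0 : HD (fun q => hh q.2) 0 (hh' z) (x, z) := HD.snd (h.dh z)
  refine (((hp.pow 1).add (((HD.const 4).mul hh0).mul hp)).add (hh0.pow 1)).congr ?_ ?_
  · simp
  · simp; ring

lemma hd_X : HD (fun q => (l * q.1) ^ 2) (2 * l ^ 2 * x) 0 (x, z) := by
  refine (((HD.const l).mul (HD.fst x z)).pow 1).congr ?_ ?_
  · simp; ring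
  · simp

lemma hd_X2 : HD (fun q => (l * q.1) ^ 4) (4 * l ^ 4 * x ^ 3) 0 (x, z) := by
  refine (((HD.const l).mul (HD.fst x z)).pow 3).congr ?_ ?_
  · simp; ring
  · simp

lemma hd_Mh (h : stmtProf) (hx : x ≠ 0) :
    HD (fun q => Mh l q.1 q.2) (Mx l x z / x) (Mz l x z) (x, z) := by
  have hp : HD (fun q => ph q.2) 0 (ph' z) (x, z) := HD.snd (h.dph z)
  have hh0 : HD (fun q => hh q.2) 0 (hh' z) (x, z) := HD.snd (h.dh z)
  refine ((((HD.const 3).mul (hh0.pow 1)).add (hd_X.mul (hd_K h))).add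
    (((HD.const 3).mul hd_X2).mul (hp.pow 1))).congr ?_ ?_
  · unfold Mx
    rw [eq_div_iff hx]
    simp; ring
  · unfold Mz
    simp; ring

lemma hd_Mx (h : stmtProf) (hx : x ≠ 0) :
    HD (fun q => Mx l q.1 q.2) (Mxx l x z / x) (Mxz l x z) (x, z) := by
  have hp : HD (fun q => ph q.2) 0 (ph' z) (x, z) := HD.snd (h.dph z)
  have hh0 : HD (fun q => hh q.2) 0 (hh' z) (x, z) := HD.snd (h.dh z)
  refine ((((HD.const 2).mul hd_X).mul (hd_K h)).add
    (((HD.const 12).mul hd_X2).mul (hp.pow 1))).congr ?_ ?_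
  · unfold Mxx
    rw [eq_div_iff hx]
    simp; ring
  · unfold Mxz
    simp; ring

lemma hd_Rr (h : stmtProf) (hx : x ≠ 0) (hM : Mh l x z ≠ 0) :
    HD (fun q => Rr l q.1 q.2) (Rr l x z * (2 - Mx l x z / Mh l x z) / x) (Rz l x z) (x, z) := by
  have hn : HD (fun q => nn q.2) 0 (nn' z) (x, z) := HD.snd (h.dn z)
  refine ((hd_X.mul hn).div (hd_Mh h hx) hM).congr ?_ ?_
  · unfold Rr
    simp only
    field_simp
    ring
  · unfold Rz Rr
    simp only
    field_simp
    ring

lemma hd_q (h : stmtProf) (hx : x ≠ 0) (hM : Mh l x z ≠ 0) :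
    HD (fun q => Mx l q.1 q.2 / Mh l q.1 q.2)
      ((Mxx l x z / Mh l x z - (Mx l x z / Mh l x z) ^ 2) / x)
      ((Mxz l x z - Mx l x z / Mh l x z * Mz l x z) / Mh l x z) (x, z) := by
  refine ((hd_Mx h hx).div (hd_Mh h hx) hM).congr ?_ ?_
  · simp only
    field_simp
  · rfl

lemma hd_R1 (h : stmtProf) (hx : x ≠ 0) (hM : Mh l x z ≠ 0) :
    HD (fun q => R1 l q.1 q.2)
      (Rr l x z * ((2 - Mx l x z / Mh l x z) * (10 - Mx l x z / Mh l x z) -
        (Mxx l x z / Mh l x z - (Mx l x z / Mh l x z) ^ 2)) / x) (R1z l x z) (x, z) := by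
  refine ((hd_Rr h hx hM).mul ((HD.const 10).sub (hd_q h hx hM))).congr ?_ ?_
  · simp only
    ring
  · unfold R1z
    simp only
    ring

lemma hd_x7 : HD (fun q => q.1 ^ 7) (7 * x ^ 6) 0 (x, z) := by
  refine ((HD.fst x z).pow 6).congr ?_ ?_
  · simp
  · simp

theorem rd_ok (h : stmtProf) (hR : stmtR) : stmtRd := by
  intro l hl0 hl1
  obtain ⟨C, hC1, hC⟩ := hR
  have hM : ∀ x z : ℝ, x ≠ 0 → |x| < 1 / 3 → Mh l x z ≠ 0 := fun x z hx hx3 =>
    (hC l hl0 hl1 x z hx hx3.le).1.ne'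
  have chh : Continuous hh := continuous_iff_continuousAt.2 (fun z => (h.dh z).continuousAt)
  have cph : Continuous ph := continuous_iff_continuousAt.2 (fun z => (h.dph z).continuousAt)
  have cnn : Continuous nn := continuous_iff_continuousAt.2 (fun z => (h.dn z).continuousAt)
  have chh' := h.ch'
  have cph' := h.cph'
  have cnn' := h.cn'
  have cMh : Continuous (fun q : ℝ × ℝ => Mh l q.1 q.2) := by unfold Mh; fun_prop
  have cMx : Continuous (fun q : ℝ × ℝ => Mx l q.1 q.2) := by unfold Mx; fun_prop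
  have cMxx : Continuous (fun q : ℝ × ℝ => Mxx l q.1 q.2) := by unfold Mxx; fun_prop
  have cMz : Continuous (fun q : ℝ × ℝ => Mz l q.1 q.2) := by unfold Mz; fun_prop
  have cMxz : Continuous (fun q : ℝ × ℝ => Mxz l q.1 q.2) := by unfold Mxz; fun_prop
  set S : Set (ℝ × ℝ) := {q | q.1 ≠ 0 ∧ |q.1| < 1 / 3} with hS
  have hMS : ∀ q ∈ S, Mh l q.1 q.2 ≠ 0 := fun q hq => hM q.1 q.2 hq.1 hq.2
  have cRr : ContinuousOn (fun q : ℝ × ℝ => Rr l q.1 q.2) S := by
    unfold Rr
    exact ContinuousOn.div (by fun_prop) cMh.continuousOn hMS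
  have cq : ContinuousOn (fun q : ℝ × ℝ => Mx l q.1 q.2 / Mh l q.1 q.2) S :=
    ContinuousOn.div cMx.continuousOn cMh.continuousOn hMS
  have cqq : ContinuousOn (fun q : ℝ × ℝ => Mxx l q.1 q.2 / Mh l q.1 q.2) S :=
    ContinuousOn.div cMxx.continuousOn cMh.continuousOn hMS
  have cR1 : ContinuousOn (fun q : ℝ × ℝ => R1 l q.1 q.2) S :=
    cRr.mul (continuousOn_const.sub cq)
  have cR2 : ContinuousOn (fun q : ℝ × ℝ => R2 l q.1 q.2) S :=
    cRr.mul (((continuousOn_const.sub cq).pow 2).sub (cqq.sub (cq.pow 2)))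
  have cRz : ContinuousOn (fun q : ℝ × ℝ => Rz l q.1 q.2) S := by
    have h1 : ContinuousOn (fun q : ℝ × ℝ => (l * q.1) ^ 2 * nn' q.2) S := by fun_prop
    exact ContinuousOn.div (h1.sub (cRr.mul cMz.continuousOn)) cMh.continuousOn hMS
  have cR1z : ContinuousOn (fun q : ℝ × ℝ => R1z l q.1 q.2) S :=
    (cRz.mul (continuousOn_const.sub cq)).sub
      (cRr.mul (ContinuousOn.div (cMxz.continuousOn.sub (cq.mul cMz.continuousOn))
        cMh.continuousOn hMS))
  refine ⟨?_, cRr, cR1, cR2, cRz, R1z l, cR1z, ?_, ?_⟩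
  · intro x z hx hx3
    have h1 := (hd_x7 (x := x) (z := z)).mul (hd_Rr h hx (hM x z hx hx3))
    refine h1.congr ?_ ?_
    · unfold R1
      simp only
      field_simp
      ring
    · simp only
      ring
  · obtain ⟨Λ, hΛ1, hΛ⟩ := h.bdd
    refine ⟨28 * (C / l) + (C * (C * Λ * (48 * Λ ^ 2)) + 18 * (32 * C + C / l)), ?_⟩
    intro x z hx hx3
    obtain ⟨g1, g2, g3, g4, g5, g6, g7, g8, g9⟩ := hC l hl0 hl1 x z hx hx3.le
    obtain ⟨p1, p2, p3, p4, p5, p6, p7, p8, p9⟩ := hΛ z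
    set q := Mx l x z / Mh l x z with hq
    have q1 : 7 ≤ 10 - q := by
      unfold R1 at g4
      rw [← hq, mul_comm (7 : ℝ)] at g4
      exact le_of_mul_le_mul_left g4 g2
    have q2 : 10 - q ≤ 28 := by
      unfold R1 at g5
      rw [← hq, mul_comm (28 : ℝ)] at g5
      exact le_of_mul_le_mul_left g5 g2
    have q3 : |q| ≤ 18 := by rw [abs_le]; constructor <;> linarith
    have q4 : |10 - q| ≤ 28 := by rw [abs_le]; constructor <;> linarith
    have hx1 : |x| ≤ 1 := by linarith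
    have hxR : |x| * |Rz l x z| ≤ C / l := by
      rw [le_div_iff₀ hl0]; linarith
    -- Rr * Mz / Mh
    have hnn : 0 < nn z := lt_of_lt_of_le (by positivity) p8
    have hnn' : |nn' z| ≤ 32 * nn z := by
      unfold nn'
      rw [abs_mul, abs_mul, abs_of_pos hnn, abs_of_pos (by norm_num : (0 : ℝ) < 32)]
      have := Real.abs_sin_le_one z
      nlinarith
    have hMz : Rr l x z * Mz l x z / Mh l x z = Rr l x z * (nn' z / nn z) - Rz l x z := by
      unfold Rz Rr
      field_simp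
      ring
    have hMz' : |x| * |Rr l x z * Mz l x z / Mh l x z| ≤ 32 * C + C / l := by
      rw [hMz]
      have k1 : |Rr l x z * (nn' z / nn z)| ≤ 32 * C := by
        rw [abs_mul, abs_div, abs_of_pos g2, abs_of_pos hnn]
        have : |nn' z| / nn z ≤ 32 := by rw [div_le_iff₀ hnn]; exact hnn'
        calc Rr l x z * (|nn' z| / nn z) ≤ C * 32 :=
              mul_le_mul g3 this (by positivity) (by linarith)
          _ = 32 * C := mul_comm _ _
      calc |x| * |Rr l x z * (nn' z / nn z) - Rz l x z|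
          ≤ |x| * (|Rr l x z * (nn' z / nn z)| + |Rz l x z|) :=
            mul_le_mul_of_nonneg_left (abs_sub _ _) (abs_nonneg _)
        _ = |x| * |Rr l x z * (nn' z / nn z)| + |x| * |Rz l x z| := by ring
        _ ≤ 1 * (32 * C) + C / l := by
            apply add_le_add _ hxR
            exact mul_le_mul hx1 k1 (abs_nonneg _) (by norm_num)
        _ = 32 * C + C / l := by ring
    -- Mxz
    have hX1 : (l * x) ^ 2 ≤ 1 := by
      rw [← sq_abs, abs_mul, abs_of_pos hl0]
      have : l * |x| ≤ 1 := by nlinarith [abs_nonneg x]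
      exact pow_le_one₀ (by positivity) this
    have hX0 : 0 < (l * x) ^ 2 := by positivity
    have hMxz : |Mxz l x z| ≤ (l * x) ^ 2 * (48 * Λ ^ 2) := by
      have hΛ0 : 0 ≤ Λ := by linarith
      have a1 : |ph z * ph' z| ≤ Λ ^ 2 := by
        rw [abs_mul, sq]; exact mul_le_mul p4 p5 (abs_nonneg _) hΛ0
      have a2 : |hh' z * ph z| ≤ Λ ^ 2 := by
        rw [abs_mul, sq]; exact mul_le_mul p2 p4 (abs_nonneg _) hΛ0
      have a3 : |hh z * ph' z| ≤ Λ ^ 2 := by
        rw [abs_mul, sq]; exact mul_le_mul p1 p5 (abs_nonneg _) hΛ0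
      have a4 : |hh z * hh' z| ≤ Λ ^ 2 := by
        rw [abs_mul, sq]; exact mul_le_mul p1 p2 (abs_nonneg _) hΛ0
      have e : Mxz l x z = (l * x) ^ 2 * (4 * (ph z * ph' z) + 8 * (hh' z * ph z) +
          8 * (hh z * ph' z) + 4 * (hh z * hh' z) + 24 * (l * x) ^ 2 * (ph z * ph' z)) := by
        unfold Mxz; ring
      rw [e, abs_mul, abs_of_pos hX0]
      apply mul_le_mul_of_nonneg_left _ hX0.le
      have a5 : |(l * x) ^ 2 * (ph z * ph' z)| ≤ Λ ^ 2 := by
        rw [abs_mul, abs_of_pos hX0]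
        calc (l * x) ^ 2 * |ph z * ph' z| ≤ 1 * Λ ^ 2 :=
              mul_le_mul hX1 a1 (abs_nonneg _) (by norm_num)
          _ = Λ ^ 2 := one_mul _
      rw [abs_le] at *
      constructor <;> linarith [a1.1, a1.2, a2.1, a2.2, a3.1, a3.2, a4.1, a4.2, a5.1, a5.2]
    have hXM : (l * x) ^ 2 / Mh l x z ≤ C * Λ := by
      have e : (l * x) ^ 2 / Mh l x z = Rr l x z * (nn z)⁻¹ := by
        unfold Rr
        field_simp
      rw [e]
      apply mul_le_mul g3 _ (by positivity) (by linarith)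
      rw [inv_le_comm₀ hnn (by linarith)]
      exact p8
    have hMxz' : |x| * |Rr l x z * Mxz l x z / Mh l x z| ≤ C * (C * Λ * (48 * Λ ^ 2)) := by
      rw [abs_div, abs_mul, abs_of_pos g2, abs_of_pos g1]
      have k1 : |Mxz l x z| / Mh l x z ≤ C * Λ * (48 * Λ ^ 2) := by
        calc |Mxz l x z| / Mh l x z ≤ (l * x) ^ 2 * (48 * Λ ^ 2) / Mh l x z :=
              div_le_div_of_nonneg_right hMxz g1.le
          _ = (l * x) ^ 2 / Mh l x z * (48 * Λ ^ 2) := by ring
          _ ≤ C * Λ * (48 * Λ ^ 2) := mul_le_mul_of_nonneg_right hXM (by positivity)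
      have k0 : 0 ≤ |Mxz l x z| / Mh l x z := by positivity
      calc |x| * (Rr l x z * |Mxz l x z| / Mh l x z)
          = |x| * (Rr l x z * (|Mxz l x z| / Mh l x z)) := by ring
        _ ≤ 1 * (C * (C * Λ * (48 * Λ ^ 2))) := by
            apply mul_le_mul hx1 _ (by positivity) (by norm_num)
            exact mul_le_mul g3 k1 k0 (by linarith)
        _ = _ := one_mul _
    have eR : R1z l x z = Rz l x z * (10 - q) -
        (Rr l x z * Mxz l x z / Mh l x z - q * (Rr l x z * Mz l x z / Mh l x z)) := by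
      unfold R1z
      rw [← hq]
      ring
    rw [eR]
    have t1 : |x| * |Rz l x z * (10 - q)| ≤ 28 * (C / l) := by
      rw [abs_mul, ← mul_assoc, mul_comm (28 : ℝ)]
      exact mul_le_mul hxR q4 (abs_nonneg _) (by positivity)
    have t2 : |x| * |q * (Rr l x z * Mz l x z / Mh l x z)| ≤ 18 * (32 * C + C / l) := by
      rw [abs_mul, mul_left_comm]
      exact mul_le_mul q3 hMz' (by positivity) (by norm_num)
    calc |x| * |Rz l x z * (10 - q) -
        (Rr l x z * Mxz l x z / Mh l x z - q * (Rr l x z * Mz l x z / Mh l x z))|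
        ≤ |x| * (|Rz l x z * (10 - q)| + (|Rr l x z * Mxz l x z / Mh l x z| +
          |q * (Rr l x z * Mz l x z / Mh l x z)|)) := by
          apply mul_le_mul_of_nonneg_left _ (abs_nonneg _)
          refine (abs_sub _ _).trans ?_
          exact add_le_add le_rfl (abs_sub _ _)
      _ = |x| * |Rz l x z * (10 - q)| + (|x| * |Rr l x z * Mxz l x z / Mh l x z| +
          |x| * |q * (Rr l x z * Mz l x z / Mh l x z)|) := by ring
      _ ≤ _ := add_le_add t1 (add_le_add hMxz' t2)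
  · intro x z hx hx3
    have h1 := (hd_x7 (x := x) (z := z)).mul (hd_R1 h hx (hM x z hx hx3))
    refine h1.congr ?_ ?_
    · unfold R2 R1
      simp only
      field_simp
      ring
    · simp only
      ring

end Pool.Agent.Helper8.PL
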