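import Pool.Agent.Helper82.PL.Defs

/-!
Packets SolU and Om of the counterexample for the 4-Laplacian.
-/

set_option autoImplicit false

open MeasureTheory Set Filter Topology
open Pool.Agent.Helper82.PL

namespace Pool.Agent.Helper8.PL

lemma decomp (v : E2) : v = v 0 • e0 + v 1 • e1 := by
  ext i
  fin_cases i <;> simp [e0, e1]

lemma inner_e0 (c : ℝ) (v : E2) : inner ℝ (c • e0) v = c * v 0 := by
  rw [real_inner_smul_left, e0, EuclideanSpace.inner_single_left]; simp

lemma inner_e1 (c : ℝ) (v : E2) : inner ℝ (c • e1) v = c * v 1 := by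
  rw [real_inner_smul_left, e1, EuclideanSpace.inner_single_left]; simp

lemma e00 : (e0 : E2) 0 = 1 := by simp [e0]
lemma e01 : (e0 : E2) 1 = 0 := by simp [e0]
lemma e10 : (e1 : E2) 0 = 0 := by simp [e1]
lemma e11 : (e1 : E2) 1 = 1 := by simp [e1]

lemma inner_e0' (v : E2) : inner ℝ v e0 = v 0 := by
  have := inner_e0 1 v
  rw [one_smul, one_mul] at this
  rw [real_inner_comm]; exact this

lemma inner_e1' (v : E2) : inner ℝ v e1 = v 1 := by
  have := inner_e1 1 v
  rw [one_smul, one_mul] at this
  rw [real_inner_comm]; exact this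

lemma fderiv_e0 (a : E2 → ℝ) (x : E2) : fderiv ℝ a x e0 = (gradient a x) 0 := by
  have h : inner ℝ (gradient a x) e0 = fderiv ℝ a x e0 := inner_gradient_left
  rw [← h, inner_e0']

lemma fderiv_e1 (a : E2 → ℝ) (x : E2) : fderiv ℝ a x e1 = (gradient a x) 1 := by
  have h : inner ℝ (gradient a x) e1 = fderiv ℝ a x e1 := inner_gradient_left
  rw [← h, inner_e1']

lemma inner_coord (v w : E2) : inner ℝ v w = v 0 * w 0 + v 1 * w 1 := by
  conv_lhs => rw [decomp v]
  rw [inner_add_left, inner_e0, inner_e1]

lemma dv_smul {c : E2 → ℝ} {F : E2 → E2} {x : E2} (hc : DifferentiableAt ℝ c x)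
    (hF : DifferentiableAt ℝ F x) :
    dv (fun y => c y • F y) x = c x * dv F x + inner ℝ (gradient c x) (F x) := by
  unfold dv
  have h := hc.hasFDerivAt.smul hF.hasFDerivAt
  have h' : fderiv ℝ (fun y => c y • F y) x =
      c x • fderiv ℝ F x + (fderiv ℝ c x).smulRight (F x) := h.fderiv
  rw [h']
  rw [inner_coord, ← fderiv_e0, ← fderiv_e1]
  simp only [add_apply, smul_apply,
    ContinuousLinearMap.smulRight_apply, PiLp.add_apply, PiLp.smul_apply, smul_eq_mul]
  ring

lemma gradient_exp {a : E2 → ℝ} {x : E2} (k : ℝ) (ha : DifferentiableAt ℝ a x) :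
    gradient (fun y => Real.exp (k * a y)) x = (k * Real.exp (k * a x)) • gradient a x := by
  have h1 : HasFDerivAt (fun y => Real.exp (k * a y))
      (Real.exp (k * a x) • (k • fderiv ℝ a x)) x :=
    (ha.hasFDerivAt.const_mul k).exp
  unfold gradient
  rw [h1.fderiv, map_smul, map_smul, smul_smul, mul_comm]

theorem solU_ok (hI : stmtIBP) : stmtSolU := by
  intro S hS a V ha hfl hLL φ hφ hφc hφS
  have hlip : ∃ K : NNReal, LipschitzWith K φ :=
    ContDiff.lipschitzWith_of_hasCompactSupport hφc (hφ.of_le (by exact_mod_cast le_top)) one_ne_zero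
  have hda : ∀ x ∈ S, DifferentiableAt ℝ a x := fun x hx =>
    (ha.differentiableOn one_ne_zero).differentiableAt (hS.mem_nhds hx)
  have hdf : ∀ x ∈ S, DifferentiableAt ℝ (flux a) x := fun x hx =>
    (hfl.differentiableOn one_ne_zero).differentiableAt (hS.mem_nhds hx)
  have hoff : ∀ x, x ∉ S → φ x = 0 := fun x hx => by
    by_contra h
    exact hx (hφS (subset_tsupport φ h))
  have hexp : ∀ k : ℝ, ContDiffOn ℝ 1 (fun x => Real.exp (k * a x)) S := fun k =>
    (contDiffOn_const.mul ha).exp
  constructor
  · -- the gradient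
    have h0 := hI S hS (fun x => Real.exp (1 * a x) • e0)
      ((hexp 1).smul contDiffOn_const) φ hlip hφc hφS
    have h1 := hI S hS (fun x => Real.exp (1 * a x) • e1)
      ((hexp 1).smul contDiffOn_const) φ hlip hφc hφS
    have k0 : ∀ x, dv (fun x => Real.exp (1 * a x) • e0) x * φ x =
        φ x * (Real.exp (a x) * (gradient a x) 0) := by
      intro x
      by_cases hx : x ∈ S
      · rw [dv_smul ((hexp 1).differentiableOn one_ne_zero |>.differentiableAt (hS.mem_nhds hx))
          (differentiableAt_const _), gradient_exp 1 (hda x hx), inner_e0']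
        have : dv (fun _ : E2 => e0) x = 0 := by unfold dv; simp
        rw [this, PiLp.smul_apply, one_mul, one_mul, smul_eq_mul]
        ring
      · rw [hoff x hx]; ring
    have k1 : ∀ x, dv (fun x => Real.exp (1 * a x) • e1) x * φ x =
        φ x * (Real.exp (a x) * (gradient a x) 1) := by
      intro x
      by_cases hx : x ∈ S
      · rw [dv_smul ((hexp 1).differentiableOn one_ne_zero |>.differentiableAt (hS.mem_nhds hx))
          (differentiableAt_const _), gradient_exp 1 (hda x hx), inner_e1']
        have : dv (fun _ : E2 => e1) x = 0 := by unfold dv; simp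
        rw [this, PiLp.smul_apply, one_mul, one_mul, smul_eq_mul]
        ring
      · rw [hoff x hx]; ring
    have l0 : ∀ x, inner ℝ (Real.exp (1 * a x) • e0) (gradient φ x) =
        Real.exp (a x) * (gradient φ x) 0 := by
      intro x; rw [inner_e0, one_mul]
    have l1 : ∀ x, inner ℝ (Real.exp (1 * a x) • e1) (gradient φ x) =
        Real.exp (a x) * (gradient φ x) 1 := by
      intro x; rw [inner_e1, one_mul]
    simp only [k0, l0] at h0
    simp only [k1, l1] at h1
    have g1 : (fun x => Real.exp (a x) • gradient φ x) = fun x =>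
        (Real.exp (a x) * (gradient φ x) 0) • e0 + (Real.exp (a x) * (gradient φ x) 1) • e1 := by
      funext x
      conv_lhs => rw [decomp (gradient φ x)]
      rw [smul_add, smul_smul, smul_smul]
    have g2 : (fun x => φ x • (Real.exp (a x) • gradient a x)) = fun x =>
        (φ x * (Real.exp (a x) * (gradient a x) 0)) • e0 +
          (φ x * (Real.exp (a x) * (gradient a x) 1)) • e1 := by
      funext x
      conv_lhs => rw [decomp (gradient a x)]
      rw [smul_add, smul_add, smul_smul, smul_smul, smul_smul, smul_smul, mul_assoc, mul_assoc]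
    rw [g1, g2, integral_add (h0.1.smul_const _) (h1.1.smul_const _),
      integral_add (h0.2.1.smul_const _) (h1.2.1.smul_const _), integral_smul_const,
      integral_smul_const, integral_smul_const, integral_smul_const, h0.2.2, h1.2.2]
    rw [neg_smul, neg_smul]
    abel
  · have h0 := hI S hS (fun x => Real.exp (3 * a x) • flux a x)
      ((hexp 3).smul hfl) φ hlip hφc hφS
    have k0 : ∀ x, dv (fun x => Real.exp (3 * a x) • flux a x) x * φ x =
        V x * Real.exp (a x) ^ 3 * φ x := by
      intro x
      by_cases hx : x ∈ S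
      · rw [dv_smul ((hexp 3).differentiableOn one_ne_zero |>.differentiableAt (hS.mem_nhds hx))
          (hdf x hx), gradient_exp 3 (hda x hx), ← hLL x hx]
        unfold LL
        have e3 : Real.exp (3 * a x) = Real.exp (a x) ^ 3 := by
          rw [← Real.exp_nat_mul]; norm_num
        rw [real_inner_smul_left]
        have : inner ℝ (gradient a x) (flux a x) = ‖gradient a x‖ ^ 4 := by
          unfold flux
          rw [real_inner_smul_right, real_inner_self_eq_norm_sq]; ring
        rw [this, e3]; ring
      · rw [hoff x hx]; ring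
    have l0 : ∀ x, inner ℝ (Real.exp (3 * a x) • flux a x) (gradient φ x) =
        ‖Real.exp (a x) • gradient a x‖ ^ 2 *
          inner ℝ (Real.exp (a x) • gradient a x) (gradient φ x) := by
      intro x
      unfold flux
      have e3 : Real.exp (3 * a x) = Real.exp (a x) ^ 3 := by
        rw [← Real.exp_nat_mul]; norm_num
      rw [real_inner_smul_left, real_inner_smul_left, real_inner_smul_left, norm_smul,
        Real.norm_eq_abs, mul_pow, sq_abs, e3]
      ring
    simp only [k0, l0] at h0
    rw [integral_add h0.1 h0.2.1, h0.2.2]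
    ring

lemma norm_gradient (f : E2 → ℝ) (p : E2) : ‖gradient f p‖ = ‖fderiv ℝ f p‖ := by
  unfold gradient
  exact LinearIsometryEquiv.norm_map _ _

lemma om_smul {c : ℝ} (hc : 0 < c) (q : E2) : om (c • q) = om q := by
  unfold om
  congr 1
  rw [norm_smul, Real.norm_of_nonneg hc.le, PiLp.smul_apply, smul_eq_mul]
  rw [show 2 * (c * q 0) = c * (2 * q 0) by ring]
  exact mul_div_mul_left _ _ hc.ne'

lemma om_contDiff : ContDiffOn ℝ 1 om {0}ᶜ := by
  intro p hp
  have hp0 : p ≠ 0 := hp
  apply ContDiffAt.contDiffWithinAt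
  have h1 : ContDiffAt ℝ 1 (fun q : E2 => q 0) p :=
    (EuclideanSpace.proj 0 : E2 →L[ℝ] ℝ).contDiff.contDiffAt
  have h2 : ContDiffAt ℝ 1 (fun q : E2 => ‖q‖) p := contDiffAt_norm ℝ hp0
  have h3 : ContDiffAt ℝ 1 (fun q : E2 => 2 * q 0 / ‖q‖) p :=
    (contDiffAt_const.mul h1).div h2 (norm_ne_zero_iff.2 hp0)
  have h4 : ContDiff ℝ ((1 : ℕ∞) : WithTop ℕ∞) Real.smoothTransition :=
    Real.smoothTransition.contDiff
  exact ContDiffAt.comp p (h4.contDiffAt) h3

lemma abs_le_of_th {p : E2} (hp : 0 < p 0) (h : |th p| ≤ 1 / 3) : |p 1| ≤ p 0 := by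
  by_contra hcon
  push Not at hcon
  have hpi : 1 / 3 < Real.pi / 4 := by linarith [Real.pi_gt_three]
  have h1 : 1 < |p 1 / p 0| := by
    rw [abs_div, abs_of_pos hp, lt_div_iff₀ hp]; linarith
  have h2 : |Real.arctan (p 1 / p 0)| = Real.arctan |p 1 / p 0| := by
    rcases le_total 0 (p 1 / p 0) with h0 | h0
    · rw [abs_of_nonneg h0, abs_of_nonneg (Real.arctan_nonneg.2 h0)]
    · have h5 : Real.arctan (p 1 / p 0) ≤ 0 := by
        have := Real.arctan_strictMono.monotone h0
        rwa [Real.arctan_zero] at this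
      rw [abs_of_nonpos h0, Real.arctan_neg, abs_of_nonpos h5]
  have h3 : Real.arctan 1 < Real.arctan |p 1 / p 0| := Real.arctan_strictMono h1
  rw [Real.arctan_one] at h3
  unfold th at h
  rw [h2] at h
  linarith

theorem om_ok : stmtOm := by
  refine ⟨om_contDiff, fun p => ⟨Real.smoothTransition.nonneg _, Real.smoothTransition.le_one _⟩,
    ?_, ?_, ?_⟩
  · intro p hp h
    have h1 := abs_le_of_th hp h
    apply Real.smoothTransition.one_of_one_le
    have hn : 0 < ‖p‖ := by
      rw [norm_pos_iff]
      rintro rfl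
      simp at hp
    rw [one_le_div hn, EuclideanSpace.norm_eq, Fin.sum_univ_two]
    apply Real.sqrt_le_iff.2
    refine ⟨by linarith, ?_⟩
    rw [Real.norm_eq_abs, Real.norm_eq_abs, sq_abs]
    nlinarith [abs_nonneg (p 1)]
  · intro p hp
    apply Real.smoothTransition.zero_of_nonpos
    exact div_nonpos_of_nonpos_of_nonneg (by linarith) (norm_nonneg _)
  · have hcont : ContinuousOn (fun p : E2 => fderiv ℝ om p) {0}ᶜ :=
      om_contDiff.continuousOn_fderiv_of_isOpen isOpen_compl_singleton le_rfl
    have hsph : Metric.sphere (0 : E2) 1 ⊆ {0}ᶜ := by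
      intro q hq h0
      rw [mem_singleton_iff] at h0
      rw [h0] at hq
      simp at hq
    obtain ⟨C, hC⟩ := (isCompact_sphere (0 : E2) 1).exists_bound_of_continuousOn (hcont.mono hsph)
    refine ⟨|C| + 1, by positivity, ?_⟩
    intro p hp
    have hn : 0 < ‖p‖ := norm_pos_iff.2 hp
    set c : ℝ := ‖p‖⁻¹ with hc
    have hcp : 0 < c := inv_pos.2 hn
    have hsp : c • p ∈ Metric.sphere (0 : E2) 1 := by
      rw [mem_sphere_zero_iff_norm, norm_smul, Real.norm_of_nonneg hcp.le, hc,
        inv_mul_cancel₀ hn.ne']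
    have hd : DifferentiableAt ℝ om (c • p) :=
      (om_contDiff.differentiableOn one_ne_zero).differentiableAt
        (isOpen_compl_singleton.mem_nhds (hsph hsp))
    have h1 : HasFDerivAt (fun q : E2 => c • q) (c • ContinuousLinearMap.id ℝ E2) p :=
      (hasFDerivAt_id p).const_smul c
    have h2 : HasFDerivAt (fun q : E2 => om (c • q))
        ((fderiv ℝ om (c • p)).comp (c • ContinuousLinearMap.id ℝ E2)) p :=
      HasFDerivAt.comp p hd.hasFDerivAt h1
    have h3 : (fun q : E2 => om (c • q)) = om := by
      funext q; exact om_smul hcp q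
    rw [h3] at h2
    rw [norm_gradient, h2.fderiv]
    have h4 := hC _ hsp
    calc ‖(fderiv ℝ om (c • p)).comp (c • ContinuousLinearMap.id ℝ E2)‖
        ≤ ‖fderiv ℝ om (c • p)‖ * ‖c • ContinuousLinearMap.id ℝ E2‖ :=
          ContinuousLinearMap.opNorm_comp_le _ _
      _ ≤ (|C| + 1) * c := by
          apply mul_le_mul
          · linarith [le_abs_self C]
          · rw [norm_smul, Real.norm_of_nonneg hcp.le]
            calc c * ‖ContinuousLinearMap.id ℝ E2‖ ≤ c * 1 :=
                  mul_le_mul_of_nonneg_left ContinuousLinearMap.norm_id_le hcp.le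
              _ = c := mul_one c
          · positivity
          · positivity
      _ = (|C| + 1) / ‖p‖ := by rw [hc]; rfl

end Pool.Agent.Helper8.PL
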