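import Pool.Agent.Helper8.PL.SolU

/-!
Packet U: the explicit global solution.
-/

set_option autoImplicit false

open MeasureTheory Set Filter Topology
open Pool.Agent.Helper82.PL

namespace Pool.Agent.Helper8.PL

/-- The region near the line where the first coordinate vanishes. -/
def U2 : Set E2 := {p | 2 * |p 0| < |p 1|}

lemma U2_open : IsOpen U2 := by
  have h0 : Continuous (fun p : E2 => p 0) := (EuclideanSpace.proj 0 : E2 →L[ℝ] ℝ).continuous
  have h1 : Continuous (fun p : E2 => p 1) := (EuclideanSpace.proj 1 : E2 →L[ℝ] ℝ).continuous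
  exact isOpen_lt (continuous_const.mul h0.abs) h1.abs

lemma U1_open : IsOpen {p : E2 | p 0 ≠ 0} := by
  have h0 : Continuous (fun p : E2 => p 0) := (EuclideanSpace.proj 0 : E2 →L[ℝ] ℝ).continuous
  exact isOpen_ne_fun h0 continuous_const

lemma mem_cases {p : E2} (hp : p ≠ 0) : p 0 ≠ 0 ∨ p ∈ U2 := by
  by_cases h : p 0 = 0
  · right
    have h1 : p 1 ≠ 0 := by
      intro h1
      apply hp
      ext i
      fin_cases i
      · exact h
      · exact h1
    show 2 * |p 0| < |p 1|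
    rw [h, abs_zero, mul_zero]
    exact abs_pos.2 h1
  · exact Or.inl h

lemma one_lt_arctan_two : 1 < Real.arctan 2 := by
  have h1 : Real.arctan 2 = Real.pi / 2 - Real.arctan (2⁻¹) := by
    have := Real.arctan_inv_of_pos (x := 2⁻¹) (by norm_num)
    rw [inv_inv] at this
    exact this
  have h2 : Real.arctan (2⁻¹) < 2⁻¹ := by
    have h3 : (2⁻¹ : ℝ) < Real.tan 2⁻¹ := Real.lt_tan (by norm_num) (by linarith [Real.pi_gt_three])
    have h4 := Real.arctan_strictMono h3
    rwa [Real.arctan_tan (by linarith [Real.pi_gt_three]) (by linarith [Real.pi_gt_three])] at h4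
  rw [h1]
  linarith [Real.pi_gt_three]

lemma th_U2 {p : E2} (hp : p ∈ U2) : th p = 0 ∨ 1 ≤ |th p| := by
  by_cases h : p 0 = 0
  · left; unfold th; rw [h, div_zero, Real.arctan_zero]
  · right
    have hp' : 2 * |p 0| < |p 1| := hp
    have h1 : 2 < |p 1 / p 0| := by
      rw [abs_div, lt_div_iff₀ (abs_pos.2 h)]; exact hp'
    have h2 : |Real.arctan (p 1 / p 0)| = Real.arctan |p 1 / p 0| := by
      rcases le_total 0 (p 1 / p 0) with h0 | h0
      · rw [abs_of_nonneg h0, abs_of_nonneg (Real.arctan_nonneg.2 h0)]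
      · have h5 : Real.arctan (p 1 / p 0) ≤ 0 := by
          have := Real.arctan_strictMono.monotone h0
          rwa [Real.arctan_zero] at this
        rw [abs_of_nonpos h0, Real.arctan_neg, abs_of_nonpos h5]
    unfold th
    rw [h2]
    exact (one_lt_arctan_two.trans (Real.arctan_strictMono h1)).le

lemma Lpol_zero : Lpol 0 0 0 0 0 = 0 := by unfold Lpol; ring

lemma Lpol_bd {C bx bt bxx bxt btt : ℝ} (hC : 0 ≤ C) (h1 : |bx| ≤ C) (h2 : |bt| ≤ C)
    (h3 : |bxx| ≤ C) (h4 : |bxt| ≤ C) (h5 : |btt| ≤ C) :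
    |Lpol bx bt bxx bxt btt| ≤ 16 * C ^ 3 + 12 * C ^ 4 := by
  have q1 : |bx ^ 2| ≤ C ^ 2 := by
    rw [abs_pow]; exact pow_le_pow_left₀ (abs_nonneg _) h1 2
  have q2 : |bt ^ 2| ≤ C ^ 2 := by
    rw [abs_pow]; exact pow_le_pow_left₀ (abs_nonneg _) h2 2
  have q3 : |bx ^ 2 + bt ^ 2| ≤ 2 * C ^ 2 := by
    have := abs_add_le (bx ^ 2) (bt ^ 2); linarith
  have q4 : |bxx + btt| ≤ 2 * C := by
    have := abs_add_le bxx btt; linarith
  have t1 : |(bx ^ 2 + bt ^ 2) * (bxx + btt)| ≤ 4 * C ^ 3 := by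
    rw [abs_mul]
    calc _ ≤ (2 * C ^ 2) * (2 * C) := mul_le_mul q3 q4 (abs_nonneg _) (by positivity)
      _ = 4 * C ^ 3 := by ring
  have t2 : |bx ^ 2 * bxx| ≤ C ^ 3 := by
    rw [abs_mul]
    calc _ ≤ C ^ 2 * C := mul_le_mul q1 h3 (abs_nonneg _) (by positivity)
      _ = C ^ 3 := by ring
  have t3 : |2 * bx * bt * bxt| ≤ 2 * C ^ 3 := by
    rw [abs_mul, abs_mul, abs_mul, abs_two]
    calc _ ≤ 2 * C * C * C := by
          apply mul_le_mul _ h4 (abs_nonneg _) (by positivity)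
          apply mul_le_mul _ h2 (abs_nonneg _) (by positivity)
          exact mul_le_mul_of_nonneg_left h1 (by norm_num)
      _ = 2 * C ^ 3 := by ring
  have t4 : |bt ^ 2 * btt| ≤ C ^ 3 := by
    rw [abs_mul]
    calc _ ≤ C ^ 2 * C := mul_le_mul q2 h5 (abs_nonneg _) (by positivity)
      _ = C ^ 3 := by ring
  have t5 : |2 * (bx ^ 2 + bt ^ 2) * bt| ≤ 4 * C ^ 3 := by
    rw [abs_mul, abs_mul, abs_two]
    calc _ ≤ 2 * (2 * C ^ 2) * C := by
          apply mul_le_mul _ h2 (abs_nonneg _) (by positivity)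
          exact mul_le_mul_of_nonneg_left q3 (by norm_num)
      _ = 4 * C ^ 3 := by ring
  have t6 : |3 * (bx ^ 2 + bt ^ 2) ^ 2| ≤ 12 * C ^ 4 := by
    rw [abs_mul, abs_pow, abs_of_pos (by norm_num : (0 : ℝ) < 3)]
    calc _ ≤ 3 * (2 * C ^ 2) ^ 2 := by
          apply mul_le_mul_of_nonneg_left _ (by norm_num)
          exact pow_le_pow_left₀ (abs_nonneg _) q3 2
      _ = 12 * C ^ 4 := by ring
  unfold Lpol
  rw [abs_le] at *
  constructor
  · linarith [t1.1, t2.1, t3.1, t4.1, t5.1, t6.1]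
  · linarith [t1.2, t2.2, t3.2, t4.2, t5.2, t6.2]

lemma th_meas : Measurable th := by
  have h0 : Measurable (fun p : E2 => p 0) :=
    (EuclideanSpace.proj 0 : E2 →L[ℝ] ℝ).continuous.measurable
  have h1 : Measurable (fun p : E2 => p 1) :=
    (EuclideanSpace.proj 1 : E2 →L[ℝ] ℝ).continuous.measurable
  exact Real.measurable_arctan.comp (h1.div h0)

lemma tt_meas : Measurable tt := (Real.measurable_log.comp measurable_norm).neg

lemma comp_meas {f : ℝ → ℝ → ℝ} (hf : Continuous (fun q : ℝ × ℝ => f q.1 q.2)) :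
    Measurable (fun p : E2 => f (th p) (tt p)) :=
  hf.measurable.comp (th_meas.prodMk tt_meas)

theorem u_ok (hP : stmtPolar) (hA : stmtJetAA) : stmtU := by
  intro l hl0 hl1
  obtain ⟨hJ, _, hbig, hzero, C, hC0, hC⟩ := hA l hl0 hl1
  obtain ⟨-, hc1, hcf, hform⟩ := hP univ isOpen_univ _ _ _ _ _ _ hJ
  have hS : {p : E2 | p 0 ≠ 0 ∧ (th p, tt p) ∈ (univ : Set (ℝ × ℝ))} = {p : E2 | p 0 ≠ 0} := by
    ext p; simp
  rw [hS] at hc1 hcf
  have hall : ∀ p ∈ U2, A0 l (th p) (tt p) = 0 ∧ Ax l (th p) (tt p) = 0 ∧ At l (th p) (tt p) = 0 ∧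
      Axx l (th p) (tt p) = 0 ∧ Axt l (th p) (tt p) = 0 ∧ Att l (th p) (tt p) = 0 := by
    intro p hp
    rcases th_U2 hp with h | h
    · rw [h]; exact hzero _
    · exact hbig _ _ h
  have haa : ∀ p ∈ U2, aa l p = 0 := fun p hp => (hall p hp).1
  have hev : ∀ p ∈ U2, aa l =ᶠ[𝓝 p] fun _ => (0 : ℝ) := fun p hp =>
    Filter.eventuallyEq_of_mem (U2_open.mem_nhds hp) haa
  have hgr : ∀ p ∈ U2, gradient (aa l) p = 0 := by
    intro p hp
    rw [(hev p hp).gradient_eq]
    exact gradient_fun_const p 0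
  have hfl : ∀ p ∈ U2, flux (aa l) p = 0 := by
    intro p hp
    unfold flux
    rw [hgr p hp, smul_zero]
  have hevf : ∀ p ∈ U2, flux (aa l) =ᶠ[𝓝 p] fun _ => (0 : E2) := fun p hp =>
    Filter.eventuallyEq_of_mem (U2_open.mem_nhds hp) hfl
  have hLL : ∀ p ∈ U2, LL (aa l) p = 0 := by
    intro p hp
    unfold LL dv
    rw [(hevf p hp).fderiv_eq, hgr p hp]
    simp
  have hVV : ∀ p ∈ U2, VV l p = 0 := by
    intro p hp
    obtain ⟨-, h1, h2, h3, h4, h5⟩ := hall p hp
    unfold VV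
    rw [h1, h2, h3, h4, h5, Lpol_zero, zero_div]
  have hAx : Continuous (fun q : ℝ × ℝ => Ax l q.1 q.2) :=
    continuous_iff_continuousAt.2 (fun q => (hJ.d1 q (mem_univ q)).continuousAt)
  have hAt : Continuous (fun q : ℝ × ℝ => At l q.1 q.2) :=
    continuous_iff_continuousAt.2 (fun q => (hJ.d2 q (mem_univ q)).continuousAt)
  have hAxx : Continuous (fun q : ℝ × ℝ => Axx l q.1 q.2) := continuousOn_univ.1 hJ.c0
  have hAxt : Continuous (fun q : ℝ × ℝ => Axt l q.1 q.2) := continuousOn_univ.1 hJ.c1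
  have hAtt : Continuous (fun q : ℝ × ℝ => Att l q.1 q.2) := continuousOn_univ.1 hJ.c2
  refine ⟨?_, ?_, ?_, ?_, 2 * C + (16 * C ^ 3 + 12 * C ^ 4), by positivity, ?_⟩
  · intro p hp
    rcases mem_cases hp with h | h
    · exact (hc1.contDiffAt (U1_open.mem_nhds h)).contDiffWithinAt
    · exact (contDiffAt_const.congr_of_eventuallyEq (hev p h)).contDiffWithinAt
  · intro p hp
    rcases mem_cases hp with h | h
    · exact (hcf.contDiffAt (U1_open.mem_nhds h)).contDiffWithinAt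
    · exact (contDiffAt_const.congr_of_eventuallyEq (hevf p h)).contDiffWithinAt
  · intro p hp
    rcases mem_cases hp with h | h
    · exact (hform p h (mem_univ _)).2
    · rw [hLL p h, hVV p h]
  · have m1 := comp_meas hAx
    have m2 := comp_meas hAt
    have m3 := comp_meas hAxx
    have m4 := comp_meas hAxt
    have m5 := comp_meas hAtt
    unfold VV Lpol
    fun_prop
  · intro p hp
    obtain ⟨b0, b1, b2, b3, b4, b5⟩ := hC (th p) (tt p)
    have hn : 0 < ‖p‖ := norm_pos_iff.2 hp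
    have hC3 : 0 ≤ 16 * C ^ 3 + 12 * C ^ 4 := by positivity
    refine ⟨by unfold aa; linarith, ?_, ?_⟩
    · rcases mem_cases hp with h | h
      · have h1 := (hform p h (mem_univ _)).1
        have h2 : ‖gradient (aa l) p‖ ^ 2 ≤ ((2 * C) / ‖p‖) ^ 2 := by
          have h3 : ‖gradient (aa l) p‖ ^ 2 =
            (Ax l (th p) (tt p) ^ 2 + At l (th p) (tt p) ^ 2) / ‖p‖ ^ 2 := h1
          rw [h3, div_pow]
          apply div_le_div_of_nonneg_right _ (by positivity)
          have e1 := sq_le_sq' (abs_le.1 b1).1 (abs_le.1 b1).2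
          have e2 := sq_le_sq' (abs_le.1 b2).1 (abs_le.1 b2).2
          nlinarith
        have h4 := abs_le_of_sq_le_sq h2 (by positivity)
        rw [abs_of_nonneg (norm_nonneg _)] at h4
        refine h4.trans ?_
        apply div_le_div_of_nonneg_right _ hn.le
        linarith
      · rw [hgr p h, norm_zero]
        positivity
    · unfold VV
      rw [abs_div, abs_of_pos (by positivity : 0 < ‖p‖ ^ 4)]
      apply div_le_div_of_nonneg_right _ (by positivity)
      have := Lpol_bd hC0.le b1 b2 b3 b4 b5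
      linarith

end Pool.Agent.Helper8.PL
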